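import Pool.Agent.H64T3S.Hard
import Pool.Agent.helper17.T3S.InNP

/-!
# The tree 3-spanner problem is NP-complete
-/

namespace Pool.Agent.Results.MP_e4862e_lc.TreeThreeSpannerNPComplete

open Pool.Agent.TM2Lib

/-- A decision problem: its instances, a coding of the instances by bit strings, and the set of
yes-instances.  Only codes of instances are inputs. -/
structure DecProb where
  /-- instances -/
  Inst : Type
  /-- coding of the instances -/
  code : Inst → List Bool
  /-- yes-instances -/
  yes : Inst → Prop

/-- The bit string coding an object (see `Enc`: numbers are coded by their binary digits, lists by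
right-nested pairs, and the resulting binary tree is written in prefix code). -/
def code {α : Type} [Enc α] (a : α) : List Bool := D.encD (enc a)

/-- `f` is computable in polynomial time, inputs being coded by `ca` and outputs by `cb`. -/
def PolyTime {α β : Type} (ca : α → List Bool) (cb : β → List Bool) (f : α → β) : Prop :=
  Nonempty (Turing.TM2ComputableInPolyTime ca cb f)

/-- `Q` is in NP: it has polynomial-time verifiable certificates of polynomial length. -/
def InNP (Q : DecProb) : Prop :=
  ∃ (V : Q.Inst × List Bool → Bool) (p : Polynomial ℕ),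
    PolyTime (fun z : Q.Inst × List Bool => code (Q.code z.1, z.2)) (fun b => [b]) V ∧
    ∀ x, Q.yes x ↔ ∃ y : List Bool, y.length ≤ p.eval (Q.code x).length ∧ V (x, y) = true

/-- A language as a decision problem: every string is an instance. -/
def Lang (L : Set (List Bool)) : DecProb := ⟨List Bool, id, fun x => x ∈ L⟩

/-- Polynomial-time many-one reducibility. -/
def Reduces (Q R : DecProb) : Prop :=
  ∃ f : Q.Inst → R.Inst, PolyTime Q.code R.code f ∧ ∀ x, Q.yes x ↔ R.yes (f x)

/-- Every language in NP reduces to `R`. -/
def NPHard (R : DecProb) : Prop := ∀ L : Set (List Bool), InNP (Lang L) → Reduces (Lang L) R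

/-- NP-completeness. -/
def NPComplete (R : DecProb) : Prop := InNP R ∧ NPHard R

/-- Finite simple graphs with vertex set `{0, …, n-1}`. -/
abbrev Graph : Type := Σ n : ℕ, SimpleGraph (Fin n)

open Classical in
/-- The adjacency lists of a graph. -/
noncomputable def adjLists (G : Graph) : List (List ℕ) :=
  (List.finRange G.1).map fun v =>
    ((List.finRange G.1).filter fun u => decide (G.2.Adj v u)).map Fin.val

/-- `T` is a spanning tree of `G` with stretch factor at most `t`. -/
def IsTreeSpanner {V : Type} (t : ℕ) (G T : SimpleGraph V) : Prop :=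
  T ≤ G ∧ T.IsTree ∧ ∀ u v, T.dist u v ≤ t * G.dist u v

/-- The tree `t`-spanner problem: given a finite connected graph `G` by its adjacency lists, does
`G` have a tree `t`-spanner? -/
noncomputable def TreeSpanner (t : ℕ) : DecProb where
  Inst := {G : Graph // G.2.Connected}
  code := fun G => code (adjLists G.1)
  yes := fun G => ∃ T, IsTreeSpanner t G.1.2 T

theorem pairCode_eq (p : List Bool × List Bool) : code p = GridW.pairCode p := by
  obtain ⟨s, y⟩ := p
  show D.encD (D.cons (enc s) (enc y)) = D.encD (D.cons (D.ofBits s) (D.ofBits y))
  rw [GW.ofBits_eq_enc, GW.ofBits_eq_enc]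

theorem inNP_iff (Q : DecProb) : InNP Q ↔ GridW.InNP ⟨Q.Inst, Q.code, Q.yes⟩ := by
  unfold InNP GridW.InNP
  simp only [pairCode_eq]
  exact Iff.rfl

theorem result : NPComplete (TreeSpanner 3) := by
  refine ⟨(inNP_iff _).2 H17T3S.inNP, fun L hL => ?_⟩
  exact H17T3S.treeSpanner_hard L ((inNP_iff _).1 hL)

end Pool.Agent.Results.MP_e4862e_lc.TreeThreeSpannerNPComplete
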